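import Pool.Agent.X183.PZ.Steps
import Pool.Agent.X183.DF.Fin

/-!
# Groups with large diagonal `p`-subgroups: all primes
-/

set_option autoImplicit false

open scoped Manifold ContDiff Topology Matrix
open Module

namespace Pool.Agent.X183.UL

open Pool.Agent.X183.ZM Pool.Agent.X183.NZ Pool.Agent.X183.PZ Pool.Agent.X183.DF

/-- the codimension of the kernel for `p = 2` -/
theorem codim_two {A : Type} [AddCommGroup A] [Module (ZMod 2) A] [Fintype A] {V : Type}
    [AddCommGroup V] [Module ℝ V] [FiniteDimensional ℝ V] {Z : A → Module.End ℝ V} (h0 : Z 0 = 1)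
    (hadd : ∀ S T, Z (S + T) = Z S * Z T) :
    ∃ N : Submodule (ZMod 2) A, (∀ a ∈ N, Z a = 1) ∧
      finrank (ZMod 2) A ≤ finrank (ZMod 2) N + finrank ℝ V := by
  have hfd : FiniteDimensional (ZMod 2) A := Module.Finite.of_finite
  obtain ⟨c, hc1, hc2⟩ := codim_bound' (κ := 1) Z h0 hadd (Set.range Z) (fun S => ⟨S, rfl⟩)
    (by
      rintro S _ ⟨g, rfl⟩ w
      rw [← Module.End.mul_apply, ← Module.End.mul_apply, ← hadd, ← hadd, add_comm])
    (by
      intro W hW _ _ _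
      exact Nat.one_le_iff_ne_zero.2 fun h => hW (Submodule.finrank_eq_zero.1 h))
    (finrank ℝ V) ⊤ (by simp) (fun _ _ _ _ => Submodule.mem_top)
  rw [finrank_top, one_mul] at hc2
  exact ⟨TA Z h0 hadd ⊤, fun a ha => LinearMap.ext fun w => ha w Submodule.mem_top, by omega⟩

/-- `1` for `p = 2` and `2` for odd `p` -/
def kap (p : ℕ) : ℕ := if p = 2 then 1 else 2

theorem codim_all {p : ℕ} [hp : Fact p.Prime] {A : Type} [AddCommGroup A] [Module (ZMod p) A]
    [Fintype A] {V : Type} [AddCommGroup V] [Module ℝ V] [FiniteDimensional ℝ V]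
    {Z : A → Module.End ℝ V} (h0 : Z 0 = 1) (hadd : ∀ S T, Z (S + T) = Z S * Z T) :
    ∃ (N : Submodule (ZMod p) A) (c : ℕ), (∀ a ∈ N, Z a = 1) ∧
      finrank (ZMod p) A ≤ finrank (ZMod p) N + c ∧ kap p * c ≤ finrank ℝ V := by
  by_cases hp2 : p = 2
  · subst hp2
    obtain ⟨N, h1, h2⟩ := codim_two h0 hadd
    exact ⟨N, finrank ℝ V, h1, h2, by simp [kap]⟩
  · obtain ⟨c, hc1, hc2⟩ := codim_odd (p := p) hp2 h0 hadd (finrank ℝ V) ⊤ (by simp)
      (fun _ _ _ => Submodule.mem_top)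
    rw [finrank_top] at hc2
    refine ⟨TP (p := p) Z h0 hadd ⊤, c, fun a ha => LinearMap.ext fun w =>
      mem_TP.1 ha w Submodule.mem_top, hc1, ?_⟩
    simpa [kap, hp2] using hc2

variable {p k : ℕ} [hp : Fact p.Prime] {A : Type} [AddCommGroup A] [Module (ZMod p) A] [Fintype A]
  {d : ℕ} {M : Type} [TopologicalSpace M]
  [T2Space M] [ConnectedSpace M] [ChartedSpace (EuclideanSpace ℝ (Fin d)) M]

/-- **The kernel of an action with small orbits.** -/
theorem key_all (β : A → Equiv.Perm M) (hβ0 : β 0 = 1)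
    (hβa : ∀ a b, β (a + b) = β a * β b) (hβs : ∀ a, ContMDiff (𝓡 d) (𝓡 d) 1 (β a))
    {D : Subgroup (Equiv.Perm M)} (hD : SmallP p k D) (hβD : ∀ a, β a ∈ D) :
    ∃ (N : Submodule (ZMod p) A) (c : ℕ), (∀ a ∈ N, β a = 1) ∧
      finrank (ZMod p) A ≤ finrank (ZMod p) N + k + c ∧ kap p * c ≤ d := by
  classical
  have hfd : FiniteDimensional (ZMod p) A := Module.Finite.of_finite
  have hpa : ∀ a : A, p • a = 0 := by
    intro a
    have h3 : ((p : ZMod p)) • a = p • a := Nat.cast_smul_eq_nsmul (ZMod p) p a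
    rw [← h3, ZMod.natCast_self, zero_smul]
  set b : Multiplicative A →* Equiv.Perm M :=
    { toFun := fun g => β g.toAdd
      map_one' := hβ0
      map_mul' := fun g h => hβa _ _ } with hb
  have hG : IsPGroup p (Multiplicative A) := by
    intro g
    refine ⟨1, ?_⟩
    rw [pow_one]
    exact hpa g.toAdd
  have hfinG : Finite (Multiplicative A) := Finite.of_equiv A Multiplicative.ofAdd
  obtain ⟨x, hfin, hcard⟩ := exists_smallP hD hG b fun g => hβD _
  obtain ⟨L, hL⟩ := lin_st b (fun g => hβs _) x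
  set S0 : AddSubgroup A :=
    { carrier := {a | β a x = x}
      zero_mem' := by
        show β 0 x = x
        rw [hβ0]; rfl
      add_mem' := by
        intro a c ha hc
        show β (a + c) x = x
        rw [hβa, Equiv.Perm.mul_apply, show β c x = x from hc, show β a x = x from ha]
      neg_mem' := by
        intro a ha
        have h1 : β (-a) (β a x) = x := by
          rw [← Equiv.Perm.mul_apply, ← hβa, neg_add_cancel, hβ0]; rfl
        show β (-a) x = x
        rwa [show β a x = x from ha] at h1 } with hS0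
  set A' : Submodule (ZMod p) A := AddSubgroup.toZModSubmodule p S0 with hA'
  have hA'm : ∀ a, a ∈ A' ↔ β a x = x := fun a => Iff.rfl
  letI : Fintype A' := Fintype.ofFinite _
  have hSt : ∀ a : A', Multiplicative.ofAdd (a : A) ∈ St b x := fun a => (hA'm _).1 a.2
  set Z : A' → Module.End ℝ (EuclideanSpace ℝ (Fin d)) :=
    fun a => L ⟨Multiplicative.ofAdd (a : A), hSt a⟩ with hZ
  have h0 : Z 0 = 1 := by
    have e : (⟨Multiplicative.ofAdd ((0 : A') : A), hSt 0⟩ : St b x) = 1 := Subtype.ext rfl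
    simp only [hZ]
    rw [e, map_one]
  have hadd : ∀ S T, Z (S + T) = Z S * Z T := by
    intro S T
    simp only [hZ]
    rw [← map_mul]
    congr 1
  obtain ⟨N, c, hN, hc1, hc2⟩ := codim_all (p := p) h0 hadd
  rw [finrank_euclideanSpace_fin] at hc2
  -- the index of the stabiliser
  have hidx : finrank (ZMod p) A ≤ finrank (ZMod p) A' + k := by
    set o : A → Orb b x := fun a => ⟨β a x, ⟨Multiplicative.ofAdd a, rfl⟩⟩ with ho
    set rep : Orb b x → A := fun y => if h : ∃ a, o a = y then h.choose else 0 with hrep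
    have hor : ∀ a, o (rep (o a)) = o a := by
      intro a
      have hex : ∃ T, o T = o a := ⟨a, rfl⟩
      have : rep (o a) = hex.choose := dif_pos hex
      rw [this]
      exact hex.choose_spec
    have hmem : ∀ a, -rep (o a) + a ∈ A' := by
      intro a
      have h1 : β a x = β (rep (o a)) x := (congrArg Subtype.val (hor a)).symm
      rw [hA'm, hβa, Equiv.Perm.mul_apply, h1, ← Equiv.Perm.mul_apply, ← hβa, neg_add_cancel, hβ0]
      rfl
    have hinj : Function.Injective fun a : A =>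
        ((o a, ⟨-rep (o a) + a, hmem a⟩) : Orb b x × A') := by
      intro a a' h
      simp only [Prod.mk.injEq, Subtype.mk.injEq] at h
      rw [h.1] at h
      exact add_left_cancel h.2
    have h1 := Nat.card_le_card_of_injective _ hinj
    rw [Nat.card_prod, Module.natCard_eq_pow_finrank (K := ZMod p) (V := A'),
      Module.natCard_eq_pow_finrank (K := ZMod p) (V := A), Nat.card_zmod] at h1
    have h2 : p ^ finrank (ZMod p) A ≤ p ^ (finrank (ZMod p) A' + k) := by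
      refine h1.trans ?_
      rw [pow_add, mul_comm]
      exact Nat.mul_le_mul_left _ hcard
    exact (Nat.pow_le_pow_iff_right hp.out.one_lt).1 h2
  refine ⟨N.map A'.subtype, c, ?_, ?_, hc2⟩
  · intro a ha
    obtain ⟨a', ha', rfl⟩ := Submodule.mem_map.1 ha
    exact hL _ (hN a' ha')
  · have hTTf : finrank (ZMod p) (N.map A'.subtype) = finrank (ZMod p) N :=
      (LinearEquiv.finrank_eq (Submodule.equivMapOfInjective A'.subtype
        (Submodule.injective_subtype _) _)).symm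
    rw [hTTf]
    omega

variable {n : ℕ} {R : Type} [CommRing R] {ζ : Rˣ}

theorem kap_pos (p : ℕ) : 0 < kap p := by
  unfold kap
  split_ifs <;> norm_num

/-- **A nonscalar diagonal matrix acts trivially.** -/
theorem diag_all (hz : ζ ^ p = 1) {Γ : Subgroup (Matrix (Fin n) (Fin n) R)ˣ}
    (hΓ : ∀ s : Fin n → ZMod p, ∑ i, s i = 0 → Dg (δ ζ s) ∈ Γ) (α : Γ →* Equiv.Perm M)
    (hα : ∀ g, ContMDiff (𝓡 d) (𝓡 d) 1 (α g)) (hM : SmallP p k α.range)
    (hd : (d < kap p * (n - 1 - k) ∧ (¬ p ∣ n ∨ ∀ s : Fin n → ZMod p, Dg (δ ζ s) ∈ Γ)) ∨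
      d < kap p * (n - 2 - k)) :
    ∃ s : Fin n → ZMod p, (∃ h : Dg (δ ζ s) ∈ Γ, α ⟨Dg (δ ζ s), h⟩ = 1) ∧ ∃ a b, s a ≠ s b := by
  classical
  have gen : ∀ (A1 : Submodule (ZMod p) (Fin n → ZMod p)), (∀ s ∈ A1, Dg (δ ζ s) ∈ Γ) →
      ∃ (N : Submodule (ZMod p) (Fin n → ZMod p)) (c : ℕ), N ≤ A1 ∧
        (∀ s ∈ N, ∃ h : Dg (δ ζ s) ∈ Γ, α ⟨Dg (δ ζ s), h⟩ = 1) ∧
        finrank (ZMod p) A1 ≤ finrank (ZMod p) N + k + c ∧ kap p * c ≤ d := by
    intro A1 hA1
    letI : Fintype A1 := Fintype.ofFinite _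
    obtain ⟨N, c, h1, h2, h3⟩ := key_all (p := p) (k := k) (A := A1)
      (fun s => α ⟨Dg (δ ζ (s : Fin n → ZMod p)), hA1 s s.2⟩)
      (by
        have e : (⟨Dg (δ ζ ((0 : A1) : Fin n → ZMod p)), hA1 _ (0 : A1).2⟩ : Γ) = 1 := by
          apply Subtype.ext
          show Dg (δ ζ (0 : Fin n → ZMod p)) = 1
          rw [δ_zero]
          exact (DgHom n R).map_one
        rw [e, map_one])
      (by
        intro a b
        rw [← map_mul]
        congr 1
        apply Subtype.ext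
        show Dg (δ ζ ((a : Fin n → ZMod p) + (b : Fin n → ZMod p))) =
          Dg (δ ζ (a : Fin n → ZMod p)) * Dg (δ ζ (b : Fin n → ZMod p))
        rw [δ_add hz, Dg_mul])
      (fun a => hα _) hM (fun a => ⟨_, rfl⟩)
    refine ⟨N.map A1.subtype, c, Submodule.map_subtype_le _ _, ?_, ?_, h3⟩
    · intro s hs
      obtain ⟨s', hs', rfl⟩ := Submodule.mem_map.1 hs
      exact ⟨hA1 _ s'.2, h1 s' hs'⟩
    · rw [← LinearEquiv.finrank_eq (Submodule.equivMapOfInjective A1.subtype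
        (Submodule.injective_subtype _) N)]
      exact h2
  have hS0 : ∀ s ∈ S0 n p, Dg (δ ζ s) ∈ Γ := fun s hs => hΓ s (mem_S0.1 hs)
  have hr := finrank_S0 (n := n) (p := p)
  have hlt : ∀ {a b : ℕ}, kap p * a ≤ d → d < kap p * b → a < b := by
    intro a b h1 h2
    exact lt_of_mul_lt_mul_left (lt_of_le_of_lt h1 h2) (Nat.zero_le _)
  rcases hd with ⟨hd, hpn | hu⟩ | hd
  · obtain ⟨N, c, h1, h2, h3, h4⟩ := gen (S0 n p) hS0
    have hc := hlt h4 hd
    have hN : N ≠ ⊥ := by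
      rintro rfl
      rw [finrank_bot] at h3
      omega
    obtain ⟨s, hs, hs0⟩ := Submodule.exists_mem_ne_zero_of_ne_bot hN
    refine ⟨s, h2 s hs, ?_⟩
    by_contra hcon
    push Not at hcon
    apply hs0
    have hpos : 0 < n := by omega
    have h5 := mem_S0.1 (h1 hs)
    rw [Finset.sum_congr rfl fun i _ => hcon i ⟨0, hpos⟩, Finset.sum_const, Finset.card_univ,
      Fintype.card_fin, nsmul_eq_mul] at h5
    have h6 : (n : ZMod p) ≠ 0 := by
      rw [Ne, ZMod.natCast_eq_zero_iff]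
      exact hpn
    have h7 := (mul_eq_zero.1 h5).resolve_left h6
    funext i
    rw [hcon i ⟨0, hpos⟩, h7]
    rfl
  · obtain ⟨N, c, h1, h2, h3, h4⟩ := gen ⊤ fun s _ => hu _
    have hc := hlt h4 hd
    rw [finrank_top, Module.finrank_fin_fun] at h3
    obtain ⟨s, hs, hab⟩ := nonconstP (TT := N) (by omega)
    exact ⟨s, h2 s hs, hab⟩
  · obtain ⟨N, c, h1, h2, h3, h4⟩ := gen (S0 n p) hS0
    have hc := hlt h4 hd
    obtain ⟨s, hs, hab⟩ := nonconstP (TT := N) (by omega)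
    exact ⟨s, h2 s hs, hab⟩

theorem pow_val_inj (hz : ζ ^ p = 1) (hz1 : ζ ≠ 1) {a b : ZMod p} (h : ζ ^ a.val = ζ ^ b.val) :
    a = b := by
  have ho : orderOf ζ = p := orderOf_eq_prime hz hz1
  have h1 := pow_inj_mod.1 h
  rw [ho, Nat.mod_eq_of_lt (ZMod.val_lt a), Nat.mod_eq_of_lt (ZMod.val_lt b)] at h1
  exact ZMod.val_injective p h1

/-- **Collapse.** -/
theorem collapse_all (hz : ζ ^ p = 1) (hz1 : ζ ≠ 1) {Γ : Subgroup (Matrix (Fin n) (Fin n) R)ˣ}
    (hΓ : ∀ s : Fin n → ZMod p, ∑ i, s i = 0 → Dg (δ ζ s) ∈ Γ) {α : Γ →* Equiv.Perm M}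
    (hα : AdmP p k d α)
    (hd : (d < kap p * (n - 1 - k) ∧ (¬ p ∣ n ∨ ∀ s : Fin n → ZMod p, Dg (δ ζ s) ∈ Γ)) ∨
      d < kap p * (n - 2 - k)) :
    (∃ s : Fin n → ZMod p, (∃ a b, s a ≠ s b) ∧ ∃ h : Dg (δ ζ s) ∈ Γ, α ⟨Dg (δ ζ s), h⟩ = 1) ∧
      (Marg Γ → (Set.range α).Finite) := by
  have h : (∀ g, ContMDiff (𝓡 d) (𝓡 d) 1 (α g)) ∧ SmallP p k α.range := by
    rcases hα with h | ⟨h1, h2, h3, h4⟩
    · exact h
    · refine ⟨fun g => (h1 g).of_le (by simp), ?_⟩
      refine Pool.Agent.X183.PZ.small_of_euler (n := d) α.range ?_ h4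
      rintro _ ⟨g, rfl⟩
      exact h1 g
  obtain ⟨s, ⟨hs1, hs2⟩, a, b, hab⟩ := diag_all hz hΓ α h.1 h.2 hd
  refine ⟨⟨s, ⟨a, b, hab⟩, hs1, hs2⟩, fun hM => ?_⟩
  refine range_finite α (hM α.ker inferInstance ⟨⟨Dg (δ ζ s), hs1⟩, MonoidHom.mem_ker.2 hs2, ?_⟩)
  intro c hc
  have e : Matrix.diagonal (fun i => ((δ ζ s i : Rˣ) : R)) = Matrix.diagonal fun _ => c := hc
  have ea := congrFun (congrFun e a) a
  have eb := congrFun (congrFun e b) b
  rw [Matrix.diagonal_apply_eq, Matrix.diagonal_apply_eq] at ea eb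
  exact hab (pow_val_inj hz hz1 (Units.ext (ea.trans eb.symm)))

/-- the diagonal matrices are unitary -/
theorem Dg_unitary [StarRing R] (hs : star (ζ : R) * ζ = 1) (a : Fin n → ℤ)
    (s : Fin n → ZMod p) : Dg (δ ζ s) ∈ UG R a := by
  show (Matrix.diagonal fun i => ((δ ζ s i : Rˣ) : R))ᴴ * Matrix.diagonal (fun i => (a i : R)) *
    (Matrix.diagonal fun i => ((δ ζ s i : Rˣ) : R)) = Matrix.diagonal (fun i => (a i : R))
  rw [Matrix.diagonal_conjTranspose, Matrix.diagonal_mul_diagonal, Matrix.diagonal_mul_diagonal]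
  congr 1
  funext i
  show star ((δ ζ s i : Rˣ) : R) * (a i : R) * ((δ ζ s i : Rˣ) : R) = (a i : R)
  have e : ((δ ζ s i : Rˣ) : R) = (ζ : R) ^ (s i).val := Units.val_pow_eq_pow_val _ _
  rw [e, star_pow]
  calc star (ζ : R) ^ (s i).val * (a i : R) * (ζ : R) ^ (s i).val
      = (star (ζ : R) * ζ) ^ (s i).val * (a i : R) := by rw [mul_pow]; ring
    _ = (a i : R) := by rw [hs, one_pow, one_mul]

theorem Dg_det (hz : ζ ^ p = 1) {s : Fin n → ZMod p} (hs : ∑ i, s i = 0) :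
    (Dg (δ ζ s) : Matrix (Fin n) (Fin n) R).det = 1 := by
  show (Matrix.diagonal fun i => ((δ ζ s i : Rˣ) : R)).det = 1
  rw [Matrix.det_diagonal]
  have h1 : ∀ S : Finset (Fin n), ∏ i ∈ S, δ ζ s i = ζ ^ (∑ i ∈ S, s i).val := by
    classical
    intro S
    induction S using Finset.induction_on with
    | empty => rw [Finset.prod_empty, Finset.sum_empty, ZMod.val_zero, pow_zero]
    | insert i S hi ih =>
      rw [Finset.prod_insert hi, Finset.sum_insert hi, ih, pow_val_add hz]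
      rfl
  have h2 := h1 Finset.univ
  rw [hs, ZMod.val_zero, pow_zero] at h2
  have h3 := congrArg (fun u : Rˣ => (u : R)) h2
  simpa using h3

end Pool.Agent.X183.UL
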